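import Pool.Agent.R938.EL.Complete
import Pool.Agent.R938.EL.One

/-! The hierarchy of k-restricted ET0L languages collapses exactly at k = 2. -/

namespace Pool.Agent.Results.MP_4de4a9_lc.CollapseAtTwo

open Pool.Agent.R938.EL Relation

theorem family_mono {k l : ℕ} (h : k ≤ l) : Family k ⊆ Family l := by
  rintro L ⟨G, hG, rfl⟩
  exact ⟨G, fun t ht => (hG t ht).trans h, rfl⟩

/-- The growing table. -/
def g1 (c : ℕ) : Finset (List ℕ) := if c = 3 then {[0, 3, 1]} else if c = 4 then {[2, 4]} else {[c]}

/-- The finishing table. -/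
def g2 (c : ℕ) : Finset (List ℕ) := if c = 3 then {[]} else if c = 4 then {[]} else {[c]}

/-- An ET0L system generating the words `0^n 1^n 2^n`. -/
def G0 : ET0L where
  letters := {0, 1, 2, 3, 4}
  tables := {g1, g2}
  tables_finite := by simp
  tables_nonempty := by simp
  image_nonempty := by
    intro h hh c _
    rcases hh with rfl | rfl
    · unfold g1; split_ifs <;> simp
    · unfold g2; split_ifs <;> simp
  image_closed := by
    intro h hh c hc v hv d hd
    rcases hh with rfl | rfl
    · unfold g1 at hv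
      split_ifs at hv
      · rw [Finset.mem_singleton] at hv; subst hv; simp at hd; rcases hd with rfl | rfl | rfl <;> simp
      · rw [Finset.mem_singleton] at hv; subst hv; simp at hd; rcases hd with rfl | rfl <;> simp
      · rw [Finset.mem_singleton] at hv; subst hv; simp at hd; subst hd; exact hc
    · have hv' : v ∈ g2 c := hv
      unfold g2 at hv'
      split_ifs at hv'
      · rw [Finset.mem_singleton] at hv'; subst hv'; simp at hd
      · rw [Finset.mem_singleton] at hv'; subst hv'; simp at hd
      · rw [Finset.mem_singleton] at hv'; subst hv'; simp at hd; subst hd; exact hc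
  start := [3, 4]
  start_ne := by simp
  start_mem := by simp
  terminals := {0, 1, 2}
  terminals_sub := by
    intro d hd
    simp at hd ⊢
    omega

/-- The intermediate words. -/
def W (n : ℕ) : List ℕ :=
  List.replicate n 0 ++ ([3] ++ (List.replicate n 1 ++ (List.replicate n 2 ++ [4])))

/-- The final words. -/
def V (n : ℕ) : List ℕ := List.replicate n 0 ++ List.replicate n 1 ++ List.replicate n 2

theorem rep_self (h : ℕ → Finset (List ℕ)) (n c : ℕ) (hc : h c = {[c]}) (y : List ℕ) :
    Rewrites h (List.replicate n c) y ↔ y = List.replicate n c :=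
  rewrites_self h _ _ (fun d hd => by rw [List.eq_of_mem_replicate hd]; exact hc)

theorem rewrites_W (h : ℕ → Finset (List ℕ)) (a b : List ℕ) (h0 : h 0 = {[0]}) (h1 : h 1 = {[1]})
    (h2 : h 2 = {[2]}) (h3 : h 3 = {a}) (h4 : h 4 = {b}) (n : ℕ) (y : List ℕ) :
    Rewrites h (W n) y ↔
      y = List.replicate n 0 ++ (a ++ (List.replicate n 1 ++ (List.replicate n 2 ++ b))) := by
  unfold W
  simp only [rewrites_append, rep_self h n 0 h0, rep_self h n 1 h1, rep_self h n 2 h2,
    rewrites_singleton, h3, h4, Finset.mem_singleton]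
  constructor
  · rintro ⟨_, _, rfl, ⟨_, _, rfl, ⟨_, _, rfl, ⟨_, _, rfl, rfl, rfl⟩, rfl⟩, rfl⟩, rfl⟩
    rfl
  · rintro rfl
    exact ⟨_, _, rfl, ⟨_, _, rfl, ⟨_, _, rfl, ⟨_, _, rfl, rfl, rfl⟩, rfl⟩, rfl⟩, rfl⟩

theorem g1_W (n : ℕ) (y : List ℕ) : Rewrites g1 (W n) y ↔ y = W (n + 1) := by
  rw [rewrites_W g1 [0, 3, 1] [2, 4] rfl rfl rfl rfl rfl]
  have : List.replicate n 0 ++ ([0, 3, 1] ++ (List.replicate n 1 ++
      (List.replicate n 2 ++ [2, 4]))) = W (n + 1) := by
    have e0 : List.replicate (n + 1) 0 = List.replicate n 0 ++ [0] := List.replicate_succ'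
    have e2 : List.replicate (n + 1) 2 = List.replicate n 2 ++ [2] := List.replicate_succ'
    unfold W
    rw [e0, e2, List.replicate_succ]
    simp
  rw [this]

theorem g2_W (n : ℕ) (y : List ℕ) : Rewrites g2 (W n) y ↔ y = V n := by
  rw [rewrites_W g2 [] [] rfl rfl rfl rfl rfl]
  simp [V]

theorem L0_eq : G0.lang = L0 := by
  have hV : ∀ n, V n ∈ L0 := fun n => ⟨n, rfl⟩
  have inv : ∀ y, ReflTransGen G0.Step G0.start y → (∃ n, y = W n) ∨ y ∈ L0 := by
    intro y h
    induction h with
    | refl => exact Or.inl ⟨0, rfl⟩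
    | @tail b c _ h2 ih =>
      obtain ⟨t, ht, h3⟩ := h2
      rcases ih with ⟨n, rfl⟩ | hb
      · rcases ht with rfl | rfl
        · exact Or.inl ⟨n + 1, (g1_W n _).1 h3⟩
        · exact Or.inr ((g2_W n _).1 h3 ▸ hV n)
      · obtain ⟨n, hn⟩ := hb
        have hlet : ∀ d ∈ b, d = 0 ∨ d = 1 ∨ d = 2 := by
          intro d hd
          rw [hn] at hd
          rcases List.mem_append.1 hd with hd | hd
          · rcases List.mem_append.1 hd with hd | hd
            · exact Or.inl (List.eq_of_mem_replicate hd)
            · exact Or.inr (Or.inl (List.eq_of_mem_replicate hd))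
          · exact Or.inr (Or.inr (List.eq_of_mem_replicate hd))
        have : c = b := by
          refine (rewrites_self t b c ?_).1 h3
          intro d hd
          rcases ht with rfl | rfl
          · rcases hlet d hd with rfl | rfl | rfl <;> rfl
          · rcases hlet d hd with rfl | rfl | rfl <;> rfl
        rw [this]
        exact Or.inr ⟨n, hn⟩
  ext w
  constructor
  · rintro ⟨h1, h2⟩
    rcases inv w h2 with ⟨n, rfl⟩ | h
    · have h3 : (3 : ℕ) ∈ W n := by simp [W]
      have := h1 3 h3
      simp [G0] at this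
    · exact h
  · rintro ⟨n, rfl⟩
    refine ⟨?_, ?_⟩
    · intro d hd
      rcases List.mem_append.1 hd with hd | hd
      · rcases List.mem_append.1 hd with hd | hd
        · rw [List.eq_of_mem_replicate hd]; simp [G0]
        · rw [List.eq_of_mem_replicate hd]; simp [G0]
      · rw [List.eq_of_mem_replicate hd]; simp [G0]
    · have hW : ReflTransGen G0.Step G0.start (W n) := by
        induction n with
        | zero => exact ReflTransGen.refl
        | succ n ih => exact ih.tail ⟨g1, Or.inl rfl, (g1_W n _).2 rfl⟩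
      exact hW.tail ⟨g2, Or.inr rfl, (g2_W n _).2 rfl⟩

theorem result :
    IsLeast {l : ℕ | 1 ≤ l ∧ ∀ k, l ≤ k → Family k = Family (k + 1)} 2 := by
  constructor
  · refine ⟨by norm_num, fun k hk => ?_⟩
    refine Set.Subset.antisymm (family_mono (Nat.le_succ k)) ?_
    rintro L ⟨G, _, rfl⟩
    exact family_mono hk (lang_mem_family_two G)
  · rintro l ⟨h1, h2⟩
    by_contra h3
    have hl : l = 1 := by omega
    subst hl
    have h4 := h2 1 le_rfl
    have h5 : L0 ∈ Family 2 := L0_eq ▸ lang_mem_family_two G0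
    rw [show (2 : ℕ) = 1 + 1 from rfl, ← h4] at h5
    exact L0_not_mem_family_one h5

end Pool.Agent.Results.MP_4de4a9_lc.CollapseAtTwo
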